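import Mathlib
import Pool.Agent.H58.Hopf.Struct
import Pool.Agent.H58.Hopf.Epi
import Pool.Agent.H58.Hopf.Countable

set_option autoImplicit false

universe u v w

open TensorProduct Coalgebra HopfAlgebra

namespace Pool.Agent.Results.MP_af2450_al.GenerationAndAntipode

/-- Let `k` be any field and let `H` be a Hopf algebra over `k` whose underlying ring is left and
right noetherian (any dimension, nothing assumed about the antipode).  Then

1. the antipode of `H` is bijective;
2. the dimension of `H` over `k` is countable;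
3. `H` is finitely generated in the sense of ring epimorphisms: there is a finite subset `F` of
   `H` such that two ring homomorphisms from `H` to any ring are equal as soon as they agree on
   `k` and on `F`; and moreover, with the same `F`:
4. every subalgebra `B` of `H` which contains `F`, satisfies `Δ(B) ⊆ B ⊗ B` and is left noetherian,
   or right noetherian, or contains no free `k`-algebra of rank two, generates `H` together with
   its image `S(B)` under the antipode, and is equal to `H` if `S(B) ⊆ B`;
5. every finite subset of `H` lies in a finitely generated subalgebra `B` of `H` with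
   `Δ(B) ⊆ B ⊗ B`; and if `H` is not finitely generated as a `k`-algebra, then every finitely
   generated subalgebra `B` of `H` which contains `F` and satisfies `Δ(B) ⊆ B ⊗ B` is neither left
   nor right noetherian and contains a free `k`-algebra of rank two. -/
theorem result (k : Type u) [Field k] (H : Type v) [Ring H] [HopfAlgebra k H]
    (hl : IsNoetherianRing H) (hr : IsNoetherianRing Hᵐᵒᵖ) :
    Function.Bijective (antipode k : H →ₗ[k] H) ∧
    Module.rank k H ≤ Cardinal.aleph0 ∧
    ∃ F : Finset H,
      (∀ (R : Type w) [Ring R] (f g : H →+* R),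
        (∀ c : k, f (algebraMap k H c) = g (algebraMap k H c)) → (∀ x ∈ F, f x = g x) → f = g) ∧
      (∀ B : Subalgebra k H, (∀ x ∈ F, x ∈ B) →
        (∀ b ∈ B, (comul b : H ⊗[k] H) ∈
          LinearMap.range (TensorProduct.map B.val.toLinearMap B.val.toLinearMap)) →
        (IsNoetherianRing B ∨ IsNoetherianRing Bᵐᵒᵖ ∨
          ¬ ∃ x ∈ B, ∃ y ∈ B,
            Function.Injective (FreeAlgebra.lift k ![x, y] : FreeAlgebra k (Fin 2) →ₐ[k] H)) →
        Algebra.adjoin k ((B : Set H) ∪ antipode k '' (B : Set H)) = ⊤ ∧
          ((∀ b ∈ B, antipode k b ∈ B) → B = ⊤)) ∧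
      (∀ G : Finset H, ∃ B : Subalgebra k H, B.FG ∧ (∀ x ∈ G, x ∈ B) ∧
        (∀ b ∈ B, (comul b : H ⊗[k] H) ∈
          LinearMap.range (TensorProduct.map B.val.toLinearMap B.val.toLinearMap))) ∧
      (¬ Algebra.FiniteType k H →
        ∀ B : Subalgebra k H, B.FG → (∀ x ∈ F, x ∈ B) →
        (∀ b ∈ B, (comul b : H ⊗[k] H) ∈
          LinearMap.range (TensorProduct.map B.val.toLinearMap B.val.toLinearMap)) →
        ¬ IsNoetherianRing B ∧ ¬ IsNoetherianRing Bᵐᵒᵖ ∧
          ∃ x ∈ B, ∃ y ∈ B,
            Function.Injective (FreeAlgebra.lift k ![x, y] : FreeAlgebra k (Fin 2) →ₐ[k] H)) := by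
  classical
  refine ⟨H58Hopf.antipode_bijective hl, ?_, ?_⟩
  · obtain ⟨X, hX, htop⟩ := H58Hopf.countably_generated (k := k) hl hr
    have hM : (Submonoid.closure X : Set H).Countable := by
      have : Countable X := hX.to_subtype
      have h1 : (Submonoid.closure X : Set H) ⊆
          Set.range (fun l : List X => (l.map Subtype.val).prod) := by
        intro x hx
        obtain ⟨l, hl, rfl⟩ := Submonoid.exists_list_of_mem_closure hx
        refine ⟨l.attach.map (fun y => ⟨y.1, hl y.1 y.2⟩), ?_⟩
        simp
      exact (Set.countable_range _).mono h1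
    have h2 : Submodule.span k (Submonoid.closure X : Set H) = ⊤ := by
      rw [← Algebra.adjoin_eq_span, htop, Algebra.top_toSubmodule]
    rw [← rank_top k H, ← h2]
    refine (rank_span_le _).trans ?_
    exact Cardinal.mk_le_aleph0_iff.mpr hM.to_subtype
  · obtain ⟨F1, hF1⟩ := H58Hopf.exists_finset_epi.{u, v, w} (k := k) (H := H) hr
    obtain ⟨F2, hF2⟩ := H58Hopf.generated_of_sub (k := k) hl hr
    have key : ∀ B : Subalgebra k H, (∀ x ∈ F1 ∪ F2, x ∈ B) →
        (∀ b ∈ B, (comul b : H ⊗[k] H) ∈
          LinearMap.range (TensorProduct.map B.val.toLinearMap B.val.toLinearMap)) →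
        (IsNoetherianRing B ∨ IsNoetherianRing Bᵐᵒᵖ ∨
          ¬ ∃ x ∈ B, ∃ y ∈ B,
            Function.Injective (FreeAlgebra.lift k ![x, y] : FreeAlgebra k (Fin 2) →ₐ[k] H)) →
        Algebra.adjoin k ((B : Set H) ∪ antipode k '' (B : Set H)) = ⊤ :=
      fun B hB hΔ h => hF2 B (fun x hx => hB x (Finset.mem_union_right _ hx))
        (fun b hb => hΔ b hb) h
    refine ⟨F1 ∪ F2, ?_, ?_, ?_, ?_⟩
    · intro R _ f g h1 h2
      exact hF1 R f g h1 fun x hx => h2 x (Finset.mem_union_left _ hx)
    · intro B hB hΔ h
      refine ⟨key B hB hΔ h, fun hS => ?_⟩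
      rw [eq_top_iff, ← key B hB hΔ h]
      refine Algebra.adjoin_le ?_
      rintro x (hx | ⟨y, hy, rfl⟩)
      · exact hx
      · exact hS y hy
    · intro G
      obtain ⟨m, D, hD⟩ := H58Hopf.exists_codata (k := k) G
      refine ⟨Algebra.adjoin k (Set.range fun p : Fin m × Fin m => D.d p.1 p.2), ?_, ?_, ?_⟩
      · exact ⟨(Set.finite_range (fun p : Fin m × Fin m => D.d p.1 p.2)).toFinset,
          by rw [Set.Finite.coe_toFinset]⟩
      · intro x hx
        exact D.mem_of_entries _ (fun i j => Algebra.subset_adjoin (Set.mem_range_self (i, j))) (hD x hx)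
      · intro b hb
        exact H58Hopf.comul_mem_adjoin D _ rfl b hb
    · intro hna B hfg hB hΔ
      have hno : ¬ (IsNoetherianRing B ∨ IsNoetherianRing Bᵐᵒᵖ ∨
          ¬ ∃ x ∈ B, ∃ y ∈ B,
            Function.Injective (FreeAlgebra.lift k ![x, y] : FreeAlgebra k (Fin 2) →ₐ[k] H)) := by
        intro h
        apply hna
        obtain ⟨X, hX⟩ := hfg
        have h1 := H58Hopf.adjoin_union_antipode (X : Set H) B hX.symm
        rw [key B hB hΔ h] at h1
        refine ⟨⟨X ∪ X.image (antipode k), ?_⟩⟩
        rw [Finset.coe_union, Finset.coe_image]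
        exact top_le_iff.mp h1
      push Not at hno
      exact hno

end Pool.Agent.Results.MP_af2450_al.GenerationAndAntipode
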